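import Pool.Agent.U252.HR.Main

/-!
# Central zeros, multisets and the sign symmetry of the extreme values
-/

set_option autoImplicit false

namespace Pool.Agent.U252.HR

open Finset Filter Topology Complex MeasureTheory
open Pool.Agent.U544.LI Pool.Agent.U349.EV

variable {f : ℂ → ℂ} {L : ℕ → ℝ} {δ : ℝ}

/-- the central order -/
lemma central_iff (h : LD f L δ) {Z : ℂ → ℂ} (hZ : ∀ z : ℂ, z ≠ 1 / 2 → f z = (z - 1 / 2) * Z (1 / 2 + z)) :
    analyticOrderNatAt Z (1 / 2) = 0 ↔ Z (1 / 2) ≠ 0 := by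
  have hne : ∃ z, f z ≠ 0 := ⟨1, h.ne 1 (by norm_num)⟩
  have h1 : mu f 0 = analyticOrderNatAt Z (1 / 2) := by
    rw [ord_eq h hZ (by norm_num), add_zero]
  have h2 : f 0 = (0 - 1 / 2) * Z (1 / 2) := by
    have := hZ 0 (by norm_num)
    rwa [add_zero] at this
  have h3 : f 0 = 0 ↔ Z (1 / 2) = 0 := by
    rw [h2, mul_eq_zero]
    constructor
    · rintro (h4 | h4)
      · norm_num at h4
      · exact h4
    · exact fun h4 => Or.inr h4
  rw [← h1, Ne, ← h3]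
  constructor
  · intro h4 h5
    have := mu_pos h.diff hne h5
    omega
  · intro h4
    unfold mu analyticOrderNatAt
    rw [(h.diff.analyticAt 0).analyticOrderAt_eq_zero.2 h4]
    rfl

lemma md_sum {α β : Type*} (p : α → β) (n : α →₀ ℤ) (x : β → ℝ) : ((n.mapDomain p).sum fun i k => (k : ℝ) * x i) =
    n.sum fun i k => (k : ℝ) * x (p i) := by
  rw [Finsupp.sum_mapDomain_index (fun _ => by simp) (fun _ _ _ => by push_cast; ring)]

lemma md_tot {α β : Type*} (p : α → β) (n : α →₀ ℤ) : ((n.mapDomain p).sum fun _ k => k) = n.sum fun _ k => k := by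
  rw [Finsupp.sum_mapDomain_index (fun _ => rfl) (fun _ _ _ => rfl)]

/-- the parity of the relations does not depend on repetitions -/
lemma even_surj {κ ι : Type*} (π : κ → ι) (hπ : Function.Surjective π) (g : ι → ℝ) :
    (∀ n : κ →₀ ℤ, (n.sum fun i k => (k : ℝ) * g (π i)) = 0 → Even (n.sum fun _ k => k)) ↔
      ∀ n : ι →₀ ℤ, (n.sum fun i k => (k : ℝ) * g i) = 0 → Even (n.sum fun _ k => k) := by
  constructor
  · intro h n hn
    obtain ⟨s, hs⟩ := hπ.hasRightInverse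
    rw [← md_tot s n]
    refine h (n.mapDomain s) ?_
    rw [md_sum s n (fun i => g (π i))]
    simpa only [hs _] using hn
  · intro h n hn
    rw [← md_tot π n]
    exact h (n.mapDomain π) (by rw [md_sum π n g]; exact hn)

/-- **The two extreme values and a lower bound `φ` for the central order.** -/
theorem forced_thm (h : LD f L δ) {Z : ℂ → ℂ} (hZ : ∀ z : ℂ, z ≠ 1 / 2 → f z = (z - 1 / 2) * Z (1 / 2 + z))
    {D : ℝ → ℝ} (hD : ∀ x, 0 < x → D x = Dd L δ (Real.log x)) {φ : ℝ} (hφ : φ ≤ analyticOrderNatAt Z (1 / 2)) :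
    (RHs Z → ∃ v₁ v₂ : ℝ, LimsupIs D v₁ ∧ LimsupIs (fun x => -D x) v₂ ∧
      4 * (analyticOrderNatAt Z (1 / 2) : ℝ) ≤ v₁ - v₂ ∧
      (v₁ - v₂ = 4 * φ ↔ (analyticOrderNatAt Z (1 / 2) : ℝ) = φ ∧
        ∀ n : Ord Z →₀ ℤ, (n.sum fun g k => (k : ℝ) * g.1) = 0 → Even (n.sum fun _ k => k))) ∧
    ((RHs Z ∧ (analyticOrderNatAt Z (1 / 2) : ℝ) = φ ∧
        ∀ n : Ord Z →₀ ℤ, (n.sum fun g k => (k : ℝ) * g.1) = 0 → Even (n.sum fun _ k => k)) ↔
      ∃ v, LimsupIs D v ∧ LimsupIs (fun x => -D x) (v - 4 * φ)) := by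
  obtain ⟨c1, c2, c3, c4, c5, -⟩ := set_thm h hZ hD
  have hpos : ∀ g : Ord Z, 0 ≤ aa Z g := fun g => by unfold aa; positivity
  have hneg : RHs Z → ∃ v₂, LimsupIs (fun x => -D x) v₂ ∧
      v₂ ≤ -(2 * (analyticOrderNatAt Z (1 / 2) : ℝ)) + ∑' g, aa Z g := by
    intro hR
    have h1 := c3 hR 1 (fun _ => -1) (fun _ => 1) (fun _ => one_pos)
    simp only [Fin.sum_univ_one, one_mul, neg_mul, mul_neg, mul_one] at h1
    refine ⟨_, h1, ?_⟩
    have h2 : Ez Z (fun _ : Fin 1 => (-1:ℝ)) (fun _ => 1) ≤ ∑' g, aa Z g := by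
      unfold Ez
      refine csSup_le ⟨_, _, comp_self _ 0, rfl⟩ ?_
      rintro v ⟨θ, -, rfl⟩
      have hb : ∀ g : Ord Z, |aa Z g * ((∑ j : Fin 1, (((fun _ : Fin 1 => (-1:ℝ)) j : ℝ) : ℂ) *
          (((fun _ : Fin 1 => (1:ℝ)) j : ℝ) : ℂ) ^ (g.1 * I)) * cexp (θ g * I)).re| ≤ aa Z g := by
        intro g
        rw [abs_mul, abs_of_nonneg (hpos g)]
        refine mul_le_of_le_one_right (hpos g) ((Complex.abs_re_le_norm _).trans ?_)
        rw [norm_mul, norm_e1]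
        simp
      refine Summable.tsum_le_tsum (fun g => (le_abs_self _).trans (hb g)) ?_ c1
      exact Summable.of_norm_bounded c1 fun g => by rw [Real.norm_eq_abs]; exact hb g
    linarith
  have hmain : RHs Z → ∃ v₁ v₂ : ℝ, LimsupIs D v₁ ∧ LimsupIs (fun x => -D x) v₂ ∧
      4 * (analyticOrderNatAt Z (1 / 2) : ℝ) ≤ v₁ - v₂ ∧
      (v₁ - v₂ = 4 * φ ↔ (analyticOrderNatAt Z (1 / 2) : ℝ) = φ ∧
        ∀ n : Ord Z →₀ ℤ, (n.sum fun g k => (k : ℝ) * g.1) = 0 → Even (n.sum fun _ k => k)) := by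
    intro hR
    obtain ⟨v₂, h2, h3⟩ := hneg hR
    refine ⟨_, v₂, c4 hR, h2, by linarith, ?_⟩
    constructor
    · intro h4
      have h5 : (analyticOrderNatAt Z (1 / 2) : ℝ) = φ := by linarith
      refine ⟨h5, (c5 hR).1 ?_⟩
      have h6 : v₂ = -(2 * (analyticOrderNatAt Z (1 / 2) : ℝ)) + ∑' g, aa Z g := by linarith
      rwa [← h6]
    · rintro ⟨h4, h5⟩
      have h6 := limsup_unique h2 ((c5 hR).2 h5)
      linarith
  refine ⟨hmain, ?_⟩
  constructor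
  · rintro ⟨hR, h4, h5⟩
    obtain ⟨v₁, v₂, h1, h2, -, h3⟩ := hmain hR
    have h6 := h3.2 ⟨h4, h5⟩
    refine ⟨v₁, h1, ?_⟩
    rwa [show v₁ - 4 * φ = v₂ by linarith]
  · rintro ⟨v, hv1, hv2⟩
    have hR : RHs Z := c2.2 ⟨_, (hv1.1 1 one_pos).mono fun x hx => hx.le⟩
    obtain ⟨v₁, v₂, h1, h2, -, h3⟩ := hmain hR
    have e1 := limsup_unique hv1 h1
    have e2 := limsup_unique hv2 h2
    obtain ⟨h4, h5⟩ := h3.1 (by linarith)
    exact ⟨hR, h4, h5⟩

end Pool.Agent.U252.HR
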