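import Pool.Agent.U252.HR.Kr
import Pool.Agent.U349.EV.Core

/-!
# The extreme values of an almost periodic series in terms of the relations between its frequencies
-/

set_option autoImplicit false

namespace Pool.Agent.U252.HR

open Finset Filter Topology Complex
open Pool.Agent.U349.EV

variable {ι κ : Type*}

/-- the value at the phases `θ` -/
noncomputable def FH (A : ι → ℂ) (θ : ι → ℝ) : ℝ := ∑' i, (A i * cexp (θ i * I)).re

lemma F_eq (A : ι → ℂ) (g : ι → ℝ) (t : ℝ) : F A g t = FH A (fun i => g i * t) := by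
  unfold F FH
  refine tsum_congr fun i => ?_
  push_cast
  rfl

lemma norm_e1 (x : ℝ) : ‖cexp (x * I)‖ = 1 := Complex.norm_exp_ofReal_mul_I x

lemma FH_term (A : ι → ℂ) (θ : ι → ℝ) (i : ι) : |(A i * cexp (θ i * I)).re| ≤ ‖A i‖ := by
  refine (Complex.abs_re_le_norm _).trans ?_
  rw [norm_mul, norm_e1, mul_one]

lemma FH_summ {A : ι → ℂ} (hA : Summable fun i => ‖A i‖) (θ : ι → ℝ) : Summable fun i => (A i * cexp (θ i * I)).re :=
  Summable.of_norm_bounded hA fun i => by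
    rw [Real.norm_eq_abs]
    exact FH_term A θ i

lemma FH_le {A : ι → ℂ} (hA : Summable fun i => ‖A i‖) (θ : ι → ℝ) : FH A θ ≤ ∑' i, ‖A i‖ :=
  (FH_summ hA θ).tsum_le_tsum (fun i => (le_abs_self _).trans (FH_term A θ i)) hA

/-- the values at compatible phases are limits of values -/
theorem hull_dense {A : ι → ℂ} (hA : Summable fun i => ‖A i‖) {g θ : ι → ℝ} (hθ : Comp g θ) {ε : ℝ} (hε : 0 < ε)
    (T : ℝ) : ∃ t : ℝ, T ≤ t ∧ |F A g t - FH A θ| < ε := by
  classical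
  set V := ∑' i, ‖A i‖ with hV
  have hV0 : 0 ≤ V := tsum_nonneg fun i => norm_nonneg _
  obtain ⟨S, hS⟩ : ∃ S : Finset ι, V - ε / 8 < ∑ i ∈ S, ‖A i‖ := by
    have h1 := hA.hasSum.eventually (lt_mem_nhds (show V - ε / 8 < V by linarith))
    exact h1.exists
  obtain ⟨t, ht, hc⟩ := kron_rel S hθ T (show 0 < ε / (4 * (V + 1)) by positivity)
  refine ⟨t, ht, ?_⟩
  have hsub := (summ_F hA g t).tsum_sub (FH_summ hA θ)
  have h0 : F A g t - FH A θ = ∑' i, ((A i * cexp (g i * t * I)).re - (A i * cexp (θ i * I)).re) := hsub.symm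
  have hb : ∀ i, |(A i * cexp (g i * t * I)).re - (A i * cexp (θ i * I)).re| ≤
      ‖A i‖ * ‖cexp (g i * t * I) - cexp (θ i * I)‖ := by
    intro i
    rw [← Complex.sub_re, ← mul_sub, ← norm_mul]
    exact Complex.abs_re_le_norm _
  have hb2 : ∀ i, ‖A i‖ * ‖cexp (g i * t * I) - cexp (θ i * I)‖ ≤ ‖A i‖ * 2 := by
    intro i
    refine mul_le_mul_of_nonneg_left ((norm_sub_le _ _).trans ?_) (norm_nonneg _)
    rw [norm_ex, norm_e1]
    norm_num
  have hs2 : Summable fun i => ‖A i‖ * ‖cexp (g i * t * I) - cexp (θ i * I)‖ :=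
    Summable.of_nonneg_of_le (fun i => by positivity) hb2 (hA.mul_right 2)
  have hs3 : Summable fun i => |(A i * cexp (g i * t * I)).re - (A i * cexp (θ i * I)).re| :=
    Summable.of_nonneg_of_le (fun i => abs_nonneg _) hb hs2
  have h1 : |F A g t - FH A θ| ≤ ∑' i, ‖A i‖ * ‖cexp (g i * t * I) - cexp (θ i * I)‖ := by
    rw [h0]
    refine le_trans ?_ (hs3.tsum_le_tsum hb hs2)
    have := norm_tsum_le_tsum_norm (f := fun i => ((A i * cexp (g i * t * I)).re - (A i * cexp (θ i * I)).re))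
      (by simpa only [Real.norm_eq_abs] using hs3)
    simpa only [Real.norm_eq_abs] using this
  have h2 : (∑ i ∈ S, ‖A i‖ * ‖cexp (g i * t * I) - cexp (θ i * I)‖) +
      ∑' i : {i // i ∉ S}, ‖A i‖ * ‖cexp (g i * t * I) - cexp (θ i * I)‖ =
      ∑' i, ‖A i‖ * ‖cexp (g i * t * I) - cexp (θ i * I)‖ := hs2.sum_add_tsum_subtype_compl S
  have h3 : (∑ i ∈ S, ‖A i‖) + ∑' i : {i // i ∉ S}, ‖A i‖ = V := hA.sum_add_tsum_subtype_compl S
  have h4 : ∑' i : {i // i ∉ S}, ‖A i‖ * ‖cexp (g i * t * I) - cexp (θ i * I)‖ ≤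
      (∑' i : {i // i ∉ S}, ‖A i‖) * 2 := by
    rw [← tsum_mul_right]
    exact Summable.tsum_le_tsum (fun i => hb2 i) (hs2.subtype _) ((hA.subtype _).mul_right 2)
  have h5 : ∑ i ∈ S, ‖A i‖ * ‖cexp (g i * t * I) - cexp (θ i * I)‖ ≤ (∑ i ∈ S, ‖A i‖) * (ε / (4 * (V + 1))) := by
    rw [sum_mul]
    exact sum_le_sum fun i hi => mul_le_mul_of_nonneg_left (hc i hi).le (norm_nonneg _)
  have h6 : ∑ i ∈ S, ‖A i‖ ≤ V := by
    have : 0 ≤ ∑' i : {i // i ∉ S}, ‖A i‖ := tsum_nonneg fun i => norm_nonneg _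
    linarith
  have h7 : (∑ i ∈ S, ‖A i‖) * (ε / (4 * (V + 1))) ≤ ε / 4 := by
    calc (∑ i ∈ S, ‖A i‖) * (ε / (4 * (V + 1))) ≤ (V + 1) * (ε / (4 * (V + 1))) :=
          mul_le_mul_of_nonneg_right (by linarith) (by positivity)
      _ = ε / 4 := by field_simp
  linarith

/-- the supremum over the compatible phases -/
noncomputable def EX (A : ι → ℂ) (g : ι → ℝ) : ℝ := sSup {v : ℝ | ∃ θ : ι → ℝ, Comp g θ ∧ v = FH A θ}

lemma EX_bdd {A : ι → ℂ} (hA : Summable fun i => ‖A i‖) (g : ι → ℝ) :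
    BddAbove {v : ℝ | ∃ θ : ι → ℝ, Comp g θ ∧ v = FH A θ} := by
  refine ⟨∑' i, ‖A i‖, ?_⟩
  rintro v ⟨θ, -, rfl⟩
  exact FH_le hA θ

lemma EX_ne (A : ι → ℂ) (g : ι → ℝ) : {v : ℝ | ∃ θ : ι → ℝ, Comp g θ ∧ v = FH A θ}.Nonempty :=
  ⟨_, _, comp_self g 0, rfl⟩

lemma FH_le_EX {A : ι → ℂ} (hA : Summable fun i => ‖A i‖) {g θ : ι → ℝ} (hθ : Comp g θ) : FH A θ ≤ EX A g :=
  le_csSup (EX_bdd hA g) ⟨θ, hθ, rfl⟩

lemma F_le_EX {A : ι → ℂ} (hA : Summable fun i => ‖A i‖) (g : ι → ℝ) (t : ℝ) : F A g t ≤ EX A g := by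
  rw [F_eq]
  exact FH_le_EX hA (comp_self g t)

lemma EX_le {A : ι → ℂ} (hA : Summable fun i => ‖A i‖) (g : ι → ℝ) : EX A g ≤ ∑' i, ‖A i‖ := by
  refine csSup_le (EX_ne A g) ?_
  rintro v ⟨θ, -, rfl⟩
  exact FH_le hA θ

theorem EX_approx {A : ι → ℂ} (hA : Summable fun i => ‖A i‖) (g : ι → ℝ) {ε : ℝ} (hε : 0 < ε) (T : ℝ) :
    ∃ t : ℝ, T ≤ t ∧ EX A g - ε < F A g t := by
  obtain ⟨v, ⟨θ, hθ, rfl⟩, hv⟩ := exists_lt_of_lt_csSup (EX_ne A g) (show EX A g - ε / 2 < EX A g by linarith)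
  obtain ⟨t, ht, h1⟩ := hull_dense hA hθ (half_pos hε) T
  refine ⟨t, ht, ?_⟩
  rw [abs_lt] at h1
  linarith [h1.1]

/-- **the smallest value and the odd relations** -/
theorem even_iff {a : ι → ℝ} (ha : ∀ i, 0 < a i) (hs : Summable a) (g : ι → ℝ) :
    EX (fun i => ((-(a i) : ℝ) : ℂ)) g = ∑' i, a i ↔
      ∀ n : ι →₀ ℤ, (n.sum fun i k => (k : ℝ) * g i) = 0 → Even (n.sum fun _ k => k) := by
  classical
  have hn : ∀ i, ‖((-(a i) : ℝ) : ℂ)‖ = a i := fun i => by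
    rw [Complex.norm_real, norm_neg, Real.norm_of_nonneg (ha i).le]
  have hA : Summable fun i => ‖((-(a i) : ℝ) : ℂ)‖ := by simpa only [hn] using hs
  constructor
  · intro h n hrel
    have h1 := phase_of_sup hA (g := g) n.support (fun i => n i) hrel
      (fun i _ => by exact_mod_cast (neg_ne_zero.2 (ha i).ne')) (fun ε hε => by
        obtain ⟨t, -, ht⟩ := EX_approx hA g hε 0
        refine ⟨t, ?_⟩
        rw [h] at ht
        simpa only [hn] using ht)
    have h2 : ∀ i, ((-(a i) : ℝ) : ℂ) / (‖((-(a i) : ℝ) : ℂ)‖ : ℂ) = -1 := by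
      intro i
      rw [hn]
      have : (a i : ℂ) ≠ 0 := by exact_mod_cast (ha i).ne'
      push_cast
      field_simp
    simp only [h2] at h1
    have h3 : ∏ i ∈ n.support, (-1 : ℂ) ^ n i = (-1 : ℂ) ^ (n.sum fun _ k => k) := by
      unfold Finsupp.sum
      have : ∀ s : Finset ι, ∏ i ∈ s, (-1 : ℂ) ^ n i = (-1 : ℂ) ^ (∑ i ∈ s, n i) := by
        intro s
        induction s using Finset.induction_on with
        | empty => simp
        | insert i s hi ih => rw [prod_insert hi, sum_insert hi, ih, zpow_add₀ (by norm_num)]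
      exact this _
    rw [h3] at h1
    by_contra hodd
    rw [Int.not_even_iff_odd] at hodd
    rw [hodd.neg_one_zpow] at h1
    norm_num at h1
  · intro hall
    refine le_antisymm ?_ ?_
    · have := EX_le hA g
      simpa only [hn] using this
    · have hθ : Comp g (fun _ => Real.pi) := by
        intro n hrel
        obtain ⟨m, hm⟩ := hall n hrel
        refine ⟨m, ?_⟩
        have h1 : (n.sum fun _ k => (k : ℝ) * Real.pi) = ((n.sum fun _ k => k : ℤ) : ℝ) * Real.pi := by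
          unfold Finsupp.sum
          push_cast
          rw [sum_mul]
        rw [h1, hm]
        push_cast
        ring
      refine le_trans (le_of_eq ?_) (FH_le_EX hA hθ)
      unfold FH
      refine tsum_congr fun i => ?_
      rw [Complex.exp_pi_mul_I]
      simp

lemma comp_equiv (e : ι ≃ κ) {g θ : κ → ℝ} : Comp (fun i => g (e i)) (fun i => θ (e i)) ↔ Comp g θ := by
  have key : ∀ (n : ι →₀ ℤ) (x : κ → ℝ), ((n.mapDomain e).sum fun i k => (k : ℝ) * x i) =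
      n.sum fun i k => (k : ℝ) * x (e i) := by
    intro n x
    rw [Finsupp.sum_mapDomain_index (fun _ => by simp) (fun _ _ _ => by push_cast; ring)]
  constructor
  · intro h n hn
    obtain ⟨m, hm⟩ := h (n.mapDomain e.symm) (by
      rw [← key, ← Finsupp.mapDomain_comp]
      simpa using hn)
    refine ⟨m, ?_⟩
    rw [← key, ← Finsupp.mapDomain_comp] at hm
    simpa using hm
  · intro h n hn
    obtain ⟨m, hm⟩ := h (n.mapDomain e) (by rw [key]; exact hn)
    exact ⟨m, by rw [← key]; exact hm⟩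

lemma EX_equiv (e : ι ≃ κ) (A : κ → ℂ) (g : κ → ℝ) : EX (fun i => A (e i)) (fun i => g (e i)) = EX A g := by
  unfold EX
  congr 1
  ext v
  constructor
  · rintro ⟨θ, hθ, rfl⟩
    refine ⟨fun k => θ (e.symm k), ?_, ?_⟩
    · rw [← comp_equiv e]
      simpa using hθ
    · unfold FH
      rw [← e.tsum_eq]
      simp
  · rintro ⟨θ, hθ, rfl⟩
    refine ⟨fun i => θ (e i), (comp_equiv e).2 hθ, ?_⟩
    unfold FH
    rw [← e.tsum_eq]

end Pool.Agent.U252.HR
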