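import Pool.Agent.U544.LI.Crit3
import Pool.Agent.U544.LI.SetCrit
import Pool.Agent.U544.LI.Mult

/-!
# A one-sided bound for the logarithmic mean of `D` excludes the zeros to the right

The Landau step of `Pool.Agent.U544.LI.Lan` for the integral `M(u) = ∫_0^u D` in place of `D`.
-/

set_option autoImplicit false

open Complex Filter Topology Metric Finset MeasureTheory Set
open scoped ComplexConjugate

namespace Pool.Agent.U252.HR

open Pool.Agent.W263.BSD Pool.Agent.U544.LI

variable {f : ℂ → ℂ} {L : ℕ → ℝ} {δ : ℝ}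

/-- the integral of `D` -/
noncomputable def Mu (L : ℕ → ℝ) (δ : ℝ) (u : ℝ) : ℝ := ∫ t in (0:ℝ)..u, Dd L δ t

noncomputable def Mp (L : ℕ → ℝ) (δ : ℝ) (u : ℝ) : ℝ := max (Mu L δ u) 0

noncomputable def Mm (L : ℕ → ℝ) (δ : ℝ) (u : ℝ) : ℝ := max (-Mu L δ u) 0

lemma Mu_deriv (h : LD f L δ) (u : ℝ) : HasDerivAt (Mu L δ) (Dd L δ u) u :=
  ((Dd_cont h).integral_hasStrictDerivAt 0 u).hasDerivAt

lemma Mu_cont (h : LD f L δ) : Continuous (Mu L δ) :=
  continuous_iff_continuousAt.2 fun u => (Mu_deriv h u).continuousAt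

lemma Mp_cont (h : LD f L δ) : Continuous (Mp L δ) := (Mu_cont h).max continuous_const

lemma Mm_cont (h : LD f L δ) : Continuous (Mm L δ) := (Mu_cont h).neg.max continuous_const

lemma Mpm (u : ℝ) : Mp L δ u - Mm L δ u = Mu L δ u := by
  unfold Mp Mm
  rcases le_total (Mu L δ u) 0 with h | h
  · rw [max_eq_right h, max_eq_left (by linarith)]; ring
  · rw [max_eq_left h, max_eq_right (by linarith)]; ring

/-- the constant in the trivial bound -/
noncomputable def KK (L : ℕ → ℝ) (δ : ℝ) : ℝ := 8 / 3 * |δ| + ∑' n : ℕ, L n / √n * (n:ℝ)⁻¹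

lemma KK_nonneg (h : LD f L δ) : 0 ≤ KK L δ := by
  have h1 : |Dd L δ 0| ≤ KK L δ * Real.exp 0 := D_abs h le_rfl
  rw [Real.exp_zero, mul_one] at h1
  exact (abs_nonneg _).trans h1

lemma Mu_abs (h : LD f L δ) {u : ℝ} (hu : 0 ≤ u) : |Mu L δ u| ≤ KK L δ * Real.exp u := by
  have hK := KK_nonneg h
  have hc := Dd_cont h
  calc |Mu L δ u| ≤ ∫ t in (0:ℝ)..u, |Dd L δ t| := intervalIntegral.abs_integral_le_integral_abs hu
    _ ≤ ∫ t in (0:ℝ)..u, KK L δ * Real.exp t := by
        refine intervalIntegral.integral_mono_on hu (Continuous.intervalIntegrable (by fun_prop) _ _)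
          (Continuous.intervalIntegrable (by fun_prop) _ _) fun t ht => ?_
        exact D_abs h ht.1
    _ = KK L δ * (Real.exp u - 1) := by
        rw [intervalIntegral.integral_const_mul, integral_exp, Real.exp_zero]
    _ ≤ KK L δ * Real.exp u := by
        refine mul_le_mul_of_nonneg_left ?_ hK
        linarith

lemma Mu_LInt (h : LD f L δ) {w : ℝ} (hw : 1 < w) : LInt (Mu L δ) w := by
  unfold LInt
  have hc := Mu_cont h
  refine Integrable.mono' (g := fun u : ℝ => KK L δ * Real.exp (-(w - 1) * u))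
    ((integrableOn_exp_mul_Ioi (by linarith) 0).const_mul _) (by fun_prop) ?_
  rw [ae_restrict_iff' measurableSet_Ioi]
  refine Eventually.of_forall fun u hu => ?_
  rw [norm_mul, Real.norm_eq_abs, Real.norm_of_nonneg (Real.exp_pos _).le]
  refine (mul_le_mul_of_nonneg_right (Mu_abs h (le_of_lt hu)) (Real.exp_pos _).le).trans (le_of_eq ?_)
  rw [mul_assoc, ← Real.exp_add]
  ring_nf

lemma Mm_LInt (h : LD f L δ) {w : ℝ} (hw : 1 < w) : LInt (Mm L δ) w :=
  LInt.posPart (Mu_cont h).measurable.neg (Mu_LInt h hw).neg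

lemma Mp_LInt1 (h : LD f L δ) {w : ℝ} (hw : 1 < w) : LInt (Mp L δ) w :=
  LInt.posPart (Mu_cont h).measurable (Mu_LInt h hw)

lemma Dp_LInt1 (h : LD f L δ) {w : ℝ} (hw : 1 < w) : LInt (Dp L δ) w :=
  LInt.posPart (Dd_cont h).measurable (D_LInt h hw)

/-- a linear bound for `M` from above -/
lemma Mp_LInt (h : LD f L δ) {C : ℝ} (hC : ∀ᶠ U in atTop, Mu L δ U ≤ C * U) {w : ℝ} (hw : 0 < w) :
    LInt (Mp L δ) w := by
  obtain ⟨T0, hT0⟩ := eventually_atTop.1 hC
  set T := max T0 0 with hT
  have hT00 : 0 ≤ T := le_max_right _ _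
  have hK := KK_nonneg h
  set B := |C| * (2 / w) + KK L δ * Real.exp T with hB
  have hbd : ∀ u : ℝ, 0 ≤ u → Mp L δ u ≤ B * Real.exp (w / 2 * u) := by
    intro u hu
    have a1 : 1 ≤ Real.exp (w / 2 * u) := Real.one_le_exp (by positivity)
    have a2 : u ≤ 2 / w * Real.exp (w / 2 * u) := by
      rw [div_mul_eq_mul_div, le_div_iff₀ hw]
      nlinarith [Real.add_one_le_exp (w / 2 * u)]
    have a3 : |C| * u ≤ |C| * (2 / w * Real.exp (w / 2 * u)) := mul_le_mul_of_nonneg_left a2 (abs_nonneg _)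
    have a4 : KK L δ * Real.exp T * 1 ≤ KK L δ * Real.exp T * Real.exp (w / 2 * u) :=
      mul_le_mul_of_nonneg_left a1 (by positivity)
    have a5 : 0 ≤ |C| * u := by positivity
    have a6 : 0 ≤ KK L δ * Real.exp T := by positivity
    have hle : Mp L δ u ≤ |C| * u + KK L δ * Real.exp T := by
      unfold Mp
      refine max_le ?_ (by positivity)
      rcases le_total T u with h1 | h1
      · have h2 := hT0 u ((le_max_left _ _).trans h1)
        have h3 : C * u ≤ |C| * u := mul_le_mul_of_nonneg_right (le_abs_self C) hu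
        linarith
      · have h2 := Mu_abs h hu
        have h3 : KK L δ * Real.exp u ≤ KK L δ * Real.exp T :=
          mul_le_mul_of_nonneg_left (Real.exp_le_exp.2 h1) hK
        have h4 := le_abs_self (Mu L δ u)
        linarith
    calc Mp L δ u ≤ |C| * u + KK L δ * Real.exp T := hle
      _ ≤ |C| * (2 / w * Real.exp (w / 2 * u)) + KK L δ * Real.exp T * Real.exp (w / 2 * u) := by linarith
      _ = B * Real.exp (w / 2 * u) := by rw [hB]; ring
  unfold LInt
  have hc := Mp_cont h
  refine Integrable.mono' (g := fun u : ℝ => B * Real.exp (-(w / 2) * u))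
    ((integrableOn_exp_mul_Ioi (by linarith) 0).const_mul _) (by fun_prop) ?_
  rw [ae_restrict_iff' measurableSet_Ioi]
  refine Eventually.of_forall fun u hu => ?_
  have hp0 : 0 ≤ Mp L δ u := le_max_right _ _
  rw [norm_mul, Real.norm_of_nonneg hp0, Real.norm_of_nonneg (Real.exp_pos _).le]
  refine (mul_le_mul_of_nonneg_right (hbd u (le_of_lt hu)) (Real.exp_pos _).le).trans (le_of_eq ?_)
  rw [mul_assoc, ← Real.exp_add]
  ring_nf

/-- integration by parts -/
lemma lap_parts (h : LD f L δ) {z : ℂ} (hz : 1 < z.re) :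
    z * (lapC (Mp L δ) z - lapC (Mm L δ) z) = lapC (Dp L δ) z - lapC (Dm L δ) z := by
  have i1 : IntegrableOn (fun u : ℝ => (Mp L δ u : ℂ) * cexp (-(z * u))) (Ioi 0) :=
    LInt.complex (Mp_cont h).measurable (Mp_LInt1 h hz)
  have i2 : IntegrableOn (fun u : ℝ => (Mm L δ u : ℂ) * cexp (-(z * u))) (Ioi 0) :=
    LInt.complex (Mm_cont h).measurable (Mm_LInt h hz)
  have i3 : IntegrableOn (fun u : ℝ => (Dp L δ u : ℂ) * cexp (-(z * u))) (Ioi 0) :=
    LInt.complex (Dp_cont h).measurable (Dp_LInt1 h hz)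
  have i4 : IntegrableOn (fun u : ℝ => (Dm L δ u : ℂ) * cexp (-(z * u))) (Ioi 0) :=
    LInt.complex (Dm_cont h).measurable (Dm_LInt h hz)
  have i5 : IntegrableOn (fun u : ℝ => (Mu L δ u : ℂ) * cexp (-(z * u))) (Ioi 0) :=
    LInt.complex (Mu_cont h).measurable (Mu_LInt h hz)
  have i6 : IntegrableOn (fun u : ℝ => (Dd L δ u : ℂ) * cexp (-(z * u))) (Ioi 0) :=
    LInt.complex (Dd_cont h).measurable (D_LInt h hz)
  have e1 : lapC (Mp L δ) z - lapC (Mm L δ) z = ∫ u in Ioi (0:ℝ), (Mu L δ u : ℂ) * cexp (-(z * u)) := by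
    unfold lapC
    rw [← integral_sub i1 i2]
    refine integral_congr_ae (Eventually.of_forall fun u => ?_)
    simp only
    rw [← sub_mul, ← Complex.ofReal_sub, Mpm]
  have e2 : lapC (Dp L δ) z - lapC (Dm L δ) z = ∫ u in Ioi (0:ℝ), (Dd L δ u : ℂ) * cexp (-(z * u)) := by
    unfold lapC
    rw [← integral_sub i3 i4]
    refine integral_congr_ae (Eventually.of_forall fun u => ?_)
    simp only
    rw [← sub_mul, ← Complex.ofReal_sub, Dpm]
  have hu : ∀ x ∈ Ioi (0:ℝ), HasDerivAt (fun x : ℝ => (Mu L δ x : ℂ)) ((Dd L δ x : ℝ) : ℂ) x :=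
    fun x _ => (Mu_deriv h x).ofReal_comp
  have hv : ∀ x ∈ Ioi (0:ℝ), HasDerivAt (fun x : ℝ => cexp (-(z * x))) (cexp (-(z * x)) * (-(z * 1))) x := by
    intro x _
    have h1 : HasDerivAt (fun x : ℝ => ((x : ℝ) : ℂ)) 1 x := by
      simpa using (hasDerivAt_id x).ofReal_comp
    exact ((h1.const_mul z).neg).cexp
  have hMc : Continuous fun x : ℝ => (Mu L δ x : ℂ) * cexp (-(z * x)) := by
    have := Mu_cont h
    fun_prop
  have k0 : Tendsto ((fun x : ℝ => (Mu L δ x : ℂ)) * fun x : ℝ => cexp (-(z * x))) (𝓝[>] 0) (𝓝 0) := by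
    have h1 := hMc.tendsto 0
    have h2 : (Mu L δ 0 : ℂ) * cexp (-(z * ((0:ℝ):ℂ))) = 0 := by
      have : Mu L δ 0 = 0 := by simp [Mu]
      rw [this]
      simp
    rw [h2] at h1
    exact h1.mono_left nhdsWithin_le_nhds
  have k1 : Tendsto ((fun x : ℝ => (Mu L δ x : ℂ)) * fun x : ℝ => cexp (-(z * x))) atTop (𝓝 0) := by
    have h1 : Tendsto (fun x : ℝ => KK L δ * Real.exp (-((z.re - 1) * x))) atTop (𝓝 0) := by
      have h2 : Tendsto (fun x : ℝ => (z.re - 1) * x) atTop atTop :=
        tendsto_id.const_mul_atTop (by linarith)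
      have h3 := (Real.tendsto_exp_neg_atTop_nhds_zero.comp h2).const_mul (KK L δ)
      rw [mul_zero] at h3
      exact h3
    refine squeeze_zero_norm' ?_ h1
    filter_upwards [eventually_ge_atTop 0] with x hx
    rw [Pi.mul_apply, norm_mul, Complex.norm_real, Real.norm_eq_abs, Complex.norm_exp]
    have h2 : (-(z * (x:ℂ))).re = -(z.re * x) := by simp
    rw [h2]
    refine (mul_le_mul_of_nonneg_right (Mu_abs h hx) (Real.exp_pos _).le).trans (le_of_eq ?_)
    rw [mul_assoc, ← Real.exp_add]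
    ring_nf
  have j1 : IntegrableOn ((fun x : ℝ => (Mu L δ x : ℂ)) * fun x : ℝ => cexp (-(z * x)) * (-(z * 1))) (Ioi 0) := by
    refine (i5.mul_const (-(z * 1))).congr (Eventually.of_forall fun x => ?_)
    simp only [Pi.mul_apply]
    ring
  have key := integral_Ioi_mul_deriv_eq_deriv_mul hu hv j1 i6 k0 k1
  have e3 : ∫ x in Ioi (0:ℝ), (Mu L δ x : ℂ) * (cexp (-(z * x)) * (-(z * 1))) =
      -z * ∫ x in Ioi (0:ℝ), (Mu L δ x : ℂ) * cexp (-(z * x)) := by
    rw [← integral_const_mul]
    refine integral_congr_ae (Eventually.of_forall fun x => ?_)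
    simp only
    ring
  rw [e3] at key
  rw [e1, e2]
  linear_combination -key

/-- the identity in the half-plane of convergence -/
lemma ident' (h : LD f L δ) {a : ℝ} (ha0 : 0 ≤ a) (ha : a < 2) (hp : ∀ w > a, LInt (Mp L δ) w)
    (hm : ∀ w > a, LInt (Mm L δ) w) {z : ℂ} (hz : a < z.re) :
    (1 - z ^ 2) * f z * (z * (lapC (Mp L δ) z - lapC (Mm L δ) z)) =
      2 * deriv f z + f z * (2 / 3 * δ * (1 - z) - logDeriv f 1 * (1 + z)) := by
  have hU : IsOpen {z : ℂ | a < z.re} := isOpen_lt continuous_const Complex.continuous_re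
  have hd1 : ∀ z : ℂ, a < z.re → DifferentiableAt ℂ (lapC (Mp L δ)) z := fun z hz =>
    lapC_differentiableAt (Mp_cont h).measurable hp hz
  have hd2 : ∀ z : ℂ, a < z.re → DifferentiableAt ℂ (lapC (Mm L δ)) z := fun z hz =>
    lapC_differentiableAt (Mm_cont h).measurable hm hz
  have hf := h.diff
  have hf' : Differentiable ℂ (deriv f) := (hf.contDiff (n := 2)).differentiable_deriv_two
  have hA : AnalyticOnNhd ℂ (fun z => (1 - z ^ 2) * f z * (z * (lapC (Mp L δ) z - lapC (Mm L δ) z)))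
      {z : ℂ | a < z.re} := by
    refine DifferentiableOn.analyticOnNhd (fun z hz => DifferentiableAt.differentiableWithinAt ?_) hU
    have h1 := hd1 z hz
    have h2 := hd2 z hz
    have h3 := hf z
    fun_prop
  have hB : AnalyticOnNhd ℂ (fun z => 2 * deriv f z + f z * (2 / 3 * δ * (1 - z) - logDeriv f 1 * (1 + z)))
      {z : ℂ | a < z.re} := by
    refine DifferentiableOn.analyticOnNhd (fun z hz => DifferentiableAt.differentiableWithinAt ?_) hU
    have h3 := hf z
    have h4 := hf' z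
    fun_prop
  have hpre : IsPreconnected {z : ℂ | a < z.re} := (convex_halfSpace_re_gt a).isPreconnected
  have h2mem : (2:ℂ) ∈ {z : ℂ | a < z.re} := by simpa using ha
  refine hA.eqOn_of_preconnected_of_eventuallyEq hB hpre h2mem ?_ hz
  have hV : IsOpen {z : ℂ | 1 < z.re} := isOpen_lt continuous_const Complex.continuous_re
  filter_upwards [hV.mem_nhds (show (2:ℂ) ∈ {z : ℂ | 1 < z.re} by simp)] with z hz1
  rw [lap_parts h hz1]
  exact ident h (a := 1) (by norm_num) (fun w hw => Dp_LInt1 h hw) (fun w hw => Dm_LInt h hw) hz1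

/-- Landau's step -/
lemma landau_step' (h : LD f L δ) (hp : ∀ w > 0, LInt (Mp L δ) w) {a : ℝ} (ha : 0 ≤ a)
    (hne : ∀ t : ℝ, a < t → f t ≠ 0) : ∀ w > a, LInt (Mm L δ) w := by
  set N : ℂ → ℂ := fun z => 2 * logDeriv f z + (2 / 3 * δ * (1 - z) - logDeriv f 1 * (1 + z)) with hN
  have hN1 : N 1 = 0 := by simp only [hN]; ring
  set V : Set ℂ := {z | f z ≠ 0} with hV
  have hVo : IsOpen V := isOpen_ne_fun h.diff.continuous continuous_const
  have hf' : Differentiable ℂ (deriv f) := (h.diff.contDiff (n := 2)).differentiable_deriv_two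
  have hNd : DifferentiableOn ℂ N V := by
    intro z hz
    refine DifferentiableAt.differentiableWithinAt ?_
    have h1 : DifferentiableAt ℂ (fun z => deriv f z / f z) z := (hf' z).div (h.diff z) hz
    have h2 : N = fun z => 2 * (deriv f z / f z) + (2 / 3 * δ * (1 - z) - logDeriv f 1 * (1 + z)) := rfl
    rw [h2]
    fun_prop
  have h1V : V ∈ 𝓝 (1:ℂ) := hVo.mem_nhds (h.ne 1 (by norm_num))
  have hds : DifferentiableOn ℂ (dslope N 1) V := (Complex.differentiableOn_dslope h1V).2 hNd
  set g : ℝ → ℝ := fun w => (lapC (Mp L δ) w - -(dslope N 1 w) / ((1 + w) * w)).re with hg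
  have hgan : ∀ w > a, AnalyticAt ℝ g w := by
    intro w hw
    have hw' : (w:ℂ) ∈ V := hne w hw
    have hfun : AnalyticAt ℂ (fun z => lapC (Mp L δ) z - -(dslope N 1 z) / ((1 + z) * z)) w := by
      have hU : IsOpen ({z : ℂ | 0 < z.re} ∩ V) := (isOpen_lt continuous_const Complex.continuous_re).inter hVo
      have hm : (w:ℂ) ∈ {z : ℂ | 0 < z.re} ∩ V := ⟨by simp; linarith, hw'⟩
      refine DifferentiableOn.analyticAt (s := {z : ℂ | 0 < z.re} ∩ V) ?_ (hU.mem_nhds hm)
      intro z hz
      refine DifferentiableAt.differentiableWithinAt ?_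
      have d1 : DifferentiableAt ℂ (lapC (Mp L δ)) z := lapC_differentiableAt (Mp_cont h).measurable hp hz.1
      have d2 : DifferentiableAt ℂ (dslope N 1) z := (hds z hz.2).differentiableAt (hVo.mem_nhds hz.2)
      have d3 : 1 + z ≠ 0 := by
        intro h0
        have := congrArg Complex.re h0
        have h4 : 0 < z.re := hz.1
        simp at this
        linarith
      have d4 : z ≠ 0 := by
        rintro rfl
        have h4 : 0 < (0:ℂ).re := hz.1
        simp at h4
      exact d1.sub ((d2.neg).div (by fun_prop) (mul_ne_zero d3 d4))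
    have h2 : AnalyticAt ℝ (fun x : ℝ => (fun z => lapC (Mp L δ) z - -(dslope N 1 z) / ((1 + z) * z)) (x:ℂ)) w :=
      hfun.restrictScalars.comp_of_eq (Complex.ofRealCLM.analyticAt w) rfl
    exact (Complex.reCLM.analyticAt _).comp h2
  have heq : ∀ w > 1, a < w → lap (Mm L δ) w = g w := by
    intro w hw _
    have hi := ident' h (a := 1) zero_le_one (by norm_num) (fun w hw => hp w (by linarith)) (fun w hw => Mm_LInt h hw)
      (z := (w:ℂ)) (by simpa using hw)
    have hfw : f w ≠ 0 := h.ne w (by simp; linarith)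
    have w1 : (1:ℂ) - w ≠ 0 := by
      intro h0
      have := congrArg Complex.re h0
      simp at this
      linarith
    have w2 : (1:ℂ) + w ≠ 0 := by
      intro h0
      have := congrArg Complex.re h0
      simp at this
      linarith
    have hds1 : (1 - (w:ℂ)) * -(dslope N 1 w) = N w := by
      have := sub_smul_dslope N 1 (w:ℂ)
      rw [smul_eq_mul, hN1, sub_zero] at this
      linear_combination this
    have w0 : (w:ℂ) ≠ 0 := by
      have : w ≠ 0 := by linarith
      exact_mod_cast this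
    have e1 : (1 - (w:ℂ)) * (1 + w) * (w * (lapC (Mp L δ) w - lapC (Mm L δ) w)) = N w := by
      have : (1 - (w:ℂ)) * (1 + w) * (w * (lapC (Mp L δ) w - lapC (Mm L δ) w)) * f w = N w * f w := by
        have hNw : N w = 2 * (deriv f w / f w) + (2 / 3 * δ * (1 - w) - logDeriv f 1 * (1 + w)) := rfl
        rw [hNw]
        have : 2 * (deriv f w / f w) * f w = 2 * deriv f w := by field_simp
        linear_combination hi - this
      exact mul_right_cancel₀ hfw this
    have e2 : lapC (Mp L δ) w - -(dslope N 1 w) / ((1 + w) * w) = lapC (Mm L δ) w := by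
      have e3 : (1 + (w:ℂ)) * (w * (lapC (Mp L δ) w - lapC (Mm L δ) w)) = -(dslope N 1 w) := by
        apply mul_left_cancel₀ w1
        rw [hds1, ← e1]
        ring
      rw [← e3]
      field_simp
      ring
    simp only [hg]
    rw [e2, lapC_ofReal, Complex.ofReal_re]
  exact (Pool.Agent.TH988.RB.landau_lap (Mm_cont h).measurable (fun u _ => le_max_right _ _)
    (fun w hw => Mm_LInt h hw) hgan heq).1

/-- no positive real zero -/
lemma no_real' (h : LD f L δ) (hp : ∀ w > 0, LInt (Mp L δ) w) {x : ℝ} (hx : 0 < x) : f x ≠ 0 := by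
  intro hfx
  have hx2 : x < 1 / 2 := by
    by_contra h1
    exact h.ne x (by simpa using h1) hfx
  have hcont : Continuous fun t : ℝ => f t := h.diff.continuous.comp Complex.continuous_ofReal
  have hK : IsCompact (Icc x (1 / 2) ∩ {t : ℝ | f t = 0}) :=
    isCompact_Icc.inter_right (isClosed_eq hcont continuous_const)
  have hKne : (Icc x (1 / 2) ∩ {t : ℝ | f t = 0}).Nonempty := ⟨x, ⟨⟨le_rfl, hx2.le⟩, hfx⟩⟩
  obtain ⟨x1, ⟨hx1, hfx1⟩, hmax⟩ := hK.exists_isGreatest hKne
  have hfx1 : f x1 = 0 := hfx1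
  have hx10 : 0 < x1 := lt_of_lt_of_le hx hx1.1
  have hx12 : x1 < 1 / 2 := by
    rcases hx1.2.lt_or_eq with h1 | h1
    · exact h1
    · exact absurd hfx1 (h.ne x1 (by simp [h1]))
  have hne : ∀ t : ℝ, x1 < t → f t ≠ 0 := by
    intro t ht hft
    rcases le_total t (1 / 2) with h1 | h1
    · have := hmax ⟨⟨hx1.1.trans ht.le, h1⟩, hft⟩
      linarith
    · exact h.ne t (by simpa using h1) hft
  have hm := landau_step' h hp hx10.le hne
  -- a bound for the logarithmic derivative
  set F1 := (logDeriv f 1).re with hF1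
  set B : ℝ := (lap (Mp L δ) x1 + (2 / 3 * |δ| + 2 * |F1|)) / 2 with hB
  have hbd : ∀ t : ℝ, x1 < t → t < 1 / 2 → (logDeriv f t).re ≤ B := by
    intro t h1 h2
    have hi := ident' h (a := x1) hx10.le (by linarith) (fun w hw => hp w (by linarith)) hm (z := (t:ℂ)) (by simpa using h1)
    have hft := hne t h1
    have e1 : 2 * logDeriv f t = (1 - (t:ℂ) ^ 2) * (t * (lapC (Mp L δ) t - lapC (Mm L δ) t)) -
        (2 / 3 * δ * (1 - t) - logDeriv f 1 * (1 + t)) := by
      apply mul_right_cancel₀ hft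
      rw [logDeriv_apply f (t:ℂ)]
      have : 2 * (deriv f t / f t) * f t = 2 * deriv f t := by field_simp
      linear_combination this - hi
    have e2 := congrArg Complex.re e1
    rw [lapC_ofReal, lapC_ofReal] at e2
    have e3 : ((1 - (t:ℂ) ^ 2) * (t * ((lap (Mp L δ) t : ℂ) - (lap (Mm L δ) t : ℂ))) -
        (2 / 3 * δ * (1 - t) - logDeriv f 1 * (1 + t))) =
        (((1 - t ^ 2) * (t * (lap (Mp L δ) t - lap (Mm L δ) t)) - 2 / 3 * δ * (1 - t) : ℝ) : ℂ) +
          ((1 + t : ℝ) : ℂ) * logDeriv f 1 := by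
      push_cast; ring
    rw [e3, Complex.add_re, Complex.ofReal_re, Complex.re_ofReal_mul] at e2
    have e4 : (2 * logDeriv f t).re = 2 * (logDeriv f t).re := by simp
    rw [e4] at e2
    have l1 : 0 ≤ lap (Mm L δ) t := lap_nonneg (fun u _ => le_max_right _ _) t
    have l2 : lap (Mp L δ) t ≤ lap (Mp L δ) x1 := by
      unfold lap
      refine setIntegral_mono_on (hp t (by linarith)) (hp x1 hx10) measurableSet_Ioi fun u hu => ?_
      have hu : 0 < u := hu
      refine mul_le_mul_of_nonneg_left (Real.exp_le_exp.2 ?_) (le_max_right _ _)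
      nlinarith
    have l3 : 0 ≤ lap (Mp L δ) t := lap_nonneg (fun u _ => le_max_right _ _) t
    have t0 : 0 < t := by linarith
    have t2 : 0 ≤ 1 - t ^ 2 := by nlinarith
    have t3 : 1 - t ^ 2 ≤ 1 := by nlinarith [sq_nonneg t]
    have t4 : t ≤ 1 := by linarith
    have m1 : (1 - t ^ 2) * (t * (lap (Mp L δ) t - lap (Mm L δ) t)) ≤ lap (Mp L δ) x1 := by
      have n1 : t * (lap (Mp L δ) t - lap (Mm L δ) t) ≤ lap (Mp L δ) t := by
        nlinarith [mul_nonneg t0.le l1, mul_nonneg (sub_nonneg.2 t4) l3]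
      calc (1 - t ^ 2) * (t * (lap (Mp L δ) t - lap (Mm L δ) t)) ≤ (1 - t ^ 2) * lap (Mp L δ) t :=
            mul_le_mul_of_nonneg_left n1 t2
        _ ≤ 1 * lap (Mp L δ) t := mul_le_mul_of_nonneg_right t3 l3
        _ ≤ _ := by linarith
    have m2 : -(2 / 3 * δ * (1 - t)) ≤ 2 / 3 * |δ| := by
      have : -δ ≤ |δ| := neg_le_abs δ
      have := abs_nonneg δ
      nlinarith
    have m3 : (1 + t) * F1 ≤ 2 * |F1| := by
      have : F1 ≤ |F1| := le_abs_self F1
      have := abs_nonneg F1
      nlinarith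
    rw [hB]
    linarith
  -- the contradiction
  set fr : ℝ → ℝ := fun t => (f t).re with hfr
  have hfd : ∀ t : ℝ, HasDerivAt fr (deriv f t).re t := fun t => (h.diff (t:ℂ)).hasDerivAt.real_of_complex
  have hfrc : Continuous fr := continuous_iff_continuousAt.2 fun t => (hfd t).continuousAt
  have hψ : ∀ t : ℝ, HasDerivAt (fun t => fr t ^ 2 * Real.exp (-(2 * B * t)))
      (2 * fr t * (deriv f t).re * Real.exp (-(2 * B * t)) + fr t ^ 2 * (Real.exp (-(2 * B * t)) * (-(2 * B * 1)))) t := by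
    intro t
    have h1 := (hfd t).pow 2
    have h2 : HasDerivAt (fun t : ℝ => Real.exp (-(2 * B * t))) (Real.exp (-(2 * B * t)) * (-(2 * B * 1))) t :=
      (((hasDerivAt_id t).const_mul (2 * B)).neg).exp
    refine (h1.mul h2).congr_deriv ?_
    norm_num
  have hanti : AntitoneOn (fun t => fr t ^ 2 * Real.exp (-(2 * B * t))) (Icc x1 (1 / 2)) := by
    refine antitoneOn_of_deriv_nonpos (convex_Icc _ _) (by fun_prop)
      (fun t _ => (hψ t).differentiableAt.differentiableWithinAt) fun t ht => ?_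
    rw [interior_Icc] at ht
    rw [(hψ t).deriv]
    have hft := hne t ht.1
    have hr := real_on h t
    have hfr0 : fr t ≠ 0 := by
      intro h0
      apply hft
      rw [hr]
      simp only [hfr] at h0
      rw [h0, Complex.ofReal_zero]
    have e1 : (deriv f t).re = fr t * (logDeriv f t).re := by
      have : deriv f t = (fr t : ℂ) * logDeriv f t := by
        rw [logDeriv_apply]
        simp only [hfr]
        rw [← hr]
        field_simp
      rw [this, Complex.re_ofReal_mul]
    rw [e1]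
    have h1 := hbd t ht.1 ht.2
    have h2 : 2 * fr t * (fr t * (logDeriv f t).re) * Real.exp (-(2 * B * t)) +
        fr t ^ 2 * (Real.exp (-(2 * B * t)) * (-(2 * B * 1))) =
        2 * fr t ^ 2 * Real.exp (-(2 * B * t)) * ((logDeriv f t).re - B) := by ring
    rw [h2]
    exact mul_nonpos_of_nonneg_of_nonpos (by positivity) (by linarith)
  have h3 := hanti (left_mem_Icc.2 hx12.le) (right_mem_Icc.2 hx12.le) hx12.le
  have h4 : fr x1 = 0 := by simp only [hfr]; rw [hfx1, Complex.zero_re]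
  have h5 : fr (1 / 2) ≠ 0 := by
    intro h0
    have := h.ne ((1 / 2 : ℝ) : ℂ) (by simp)
    apply this
    rw [real_on h]
    simp only [hfr] at h0
    rw [h0, Complex.ofReal_zero]
  simp only [h4] at h3
  have h6 : 0 < fr (1 / 2) ^ 2 * Real.exp (-(2 * B * (1 / 2))) := by positivity
  have h7 : (0:ℝ) ^ 2 * Real.exp (-(2 * B * x1)) = 0 := by ring
  rw [h7] at h3
  linarith

/-- **no zero to the right** -/
theorem no_pos' (h : LD f L δ) (hp : ∀ w > 0, LInt (Mp L δ) w) {w : ℂ} (hw : f w = 0) : w.re ≤ 0 := by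
  by_contra hw0
  push Not at hw0
  have hm := landau_step' h hp le_rfl fun t ht => no_real' h hp ht
  have hne : ∃ z, f z ≠ 0 := ⟨1, h.ne 1 (by norm_num)⟩
  have hU : IsOpen {z : ℂ | 0 < z.re} := isOpen_lt continuous_const Complex.continuous_re
  set H : ℂ → ℂ := fun z => ((1 - z ^ 2) * (z * (lapC (Mp L δ) z - lapC (Mm L δ) z)) -
    (2 / 3 * δ * (1 - z) - logDeriv f 1 * (1 + z))) / 2 with hH
  have hHan : AnalyticAt ℂ H w := by
    refine DifferentiableOn.analyticAt (s := {z : ℂ | 0 < z.re}) (fun z hz => ?_) (hU.mem_nhds hw0)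
    refine DifferentiableAt.differentiableWithinAt ?_
    have d1 : DifferentiableAt ℂ (lapC (Mp L δ)) z := lapC_differentiableAt (Mp_cont h).measurable hp hz
    have d2 : DifferentiableAt ℂ (lapC (Mm L δ)) z := lapC_differentiableAt (Mm_cont h).measurable hm hz
    simp only [hH]
    fun_prop
  have hfan : AnalyticAt ℂ f w := h.diff.analyticAt w
  have heq : deriv f =ᶠ[𝓝 w] f * H := by
    filter_upwards [hU.mem_nhds hw0] with z hz
    have := ident' h (a := 0) le_rfl (by norm_num) hp hm hz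
    simp only [Pi.mul_apply, hH]
    linear_combination -this / 2
  have h1 : analyticOrderAt (deriv f) w + 1 = analyticOrderAt f w := by
    have := hfan.analyticOrderAt_deriv_add_one
    simpa [hw] using this
  have h2 : analyticOrderAt (deriv f) w = analyticOrderAt f w + analyticOrderAt H w := by
    rw [analyticOrderAt_congr heq, analyticOrderAt_mul hfan hHan]
  have h3 : analyticOrderAt f w ≠ ⊤ := Pool.Agent.R362.Near.ord_ne_top h.diff hne w
  rw [h2] at h1
  have h4 : analyticOrderAt f w + 1 ≤ analyticOrderAt f w := by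
    calc analyticOrderAt f w + 1 ≤ analyticOrderAt f w + analyticOrderAt H w + 1 := by gcongr; exact le_self_add
      _ = analyticOrderAt f w := h1
  obtain ⟨n, hn⟩ := ENat.ne_top_iff_exists.1 h3
  rw [← hn] at h4
  have : n + 1 ≤ n := by exact_mod_cast h4
  omega

/-- **a one-sided bound for the mean excludes the zeros to the right** -/
theorem rh_of_mean (h : LD f L δ) {C : ℝ} (hC : ∀ᶠ U in atTop, Mu L δ U ≤ C * U) : RHf f := by
  have h1 : ∀ w, f w = 0 → w.re ≤ 0 := fun w hw => no_pos' h (fun w hw => Mp_LInt h hC hw) hw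
  intro w hw hw2
  have h2 := h1 w hw
  have h3 := h1 (-w) (h.symm w hw hw2)
  rw [Complex.neg_re] at h3
  linarith

end Pool.Agent.U252.HR
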