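import Pool.Agent.U252.HR.FM1

/-!
# The logarithmic mean of `D` and the central zeros
-/

set_option autoImplicit false

namespace Pool.Agent.U252.HR

open Finset Filter Topology Complex MeasureTheory
open Pool.Agent.U544.LI

variable {f : ℂ → ℂ} {L : ℕ → ℝ} {δ : ℝ}

/-- the mean value of a sum of cosines without constant term -/
lemma mean_DD {ι : Type*} [Countable ι] {a γ : ι → ℝ} (ha : Summable fun i => |a i|) (hγ : ∀ i, γ i ≠ 0) :
    Tendsto (mean (DD a γ)) atTop (𝓝 0) := by
  have key : ∀ U : ℝ, 0 < U → mean (DD a γ) U = ∑' i, 2 * a i * (Real.sin (γ i * U) / γ i / U) := by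
    intro U hU
    unfold mean DD
    have h1 : ∫ u in (0:ℝ)..U, ∑' i, 2 * a i * Real.cos (γ i * u) =
        ∑' i, ∫ u in (0:ℝ)..U, 2 * a i * Real.cos (γ i * u) := by
      symm
      refine intervalIntegral.tsum_intervalIntegral_eq_of_summable_norm
        (f := fun i => ⟨fun u => 2 * a i * Real.cos (γ i * u), by fun_prop⟩) ?_
      refine Summable.of_nonneg_of_le (fun i => norm_nonneg _) (fun i => ?_) (ha.mul_left 2)
      rw [ContinuousMap.norm_le _ (by positivity)]
      intro u
      simp only [ContinuousMap.restrict_apply, ContinuousMap.coe_mk]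
      rw [norm_mul, norm_mul, Real.norm_eq_abs, Real.norm_eq_abs, Real.norm_eq_abs, abs_of_pos (two_pos)]
      calc 2 * |a i| * |Real.cos (γ i * u)| ≤ 2 * |a i| * 1 :=
            mul_le_mul_of_nonneg_left (Real.abs_cos_le_one _) (by positivity)
        _ = 2 * |a i| := mul_one _
    rw [h1, ← tsum_div_const]
    refine tsum_congr fun i => ?_
    rw [intervalIntegral.integral_const_mul, intervalIntegral.integral_comp_mul_left (fun x => Real.cos x) (hγ i),
      integral_cos]
    simp only [mul_zero, Real.sin_zero, sub_zero, smul_eq_mul]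
    ring
  have h0 : Tendsto (fun U : ℝ => ∑' i, 2 * a i * (Real.sin (γ i * U) / γ i / U)) atTop (𝓝 (∑' _ : ι, (0:ℝ))) := by
    refine tendsto_tsum_of_dominated_convergence (bound := fun i => 2 * |a i|) (ha.mul_left 2) (fun i => ?_) ?_
    · have h2 : Tendsto (fun U : ℝ => Real.sin (γ i * U) / γ i / U) atTop (𝓝 0) := by
        have h3 : Tendsto (fun U : ℝ => |γ i|⁻¹ / U) atTop (𝓝 0) := tendsto_const_nhds.div_atTop tendsto_id
        refine squeeze_zero_norm' ?_ h3
        filter_upwards [eventually_gt_atTop 0] with U hU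
        rw [norm_div, norm_div, Real.norm_eq_abs, Real.norm_eq_abs, Real.norm_eq_abs, abs_of_pos hU]
        refine div_le_div_of_nonneg_right ?_ hU.le
        rw [div_eq_mul_inv]
        calc |Real.sin (γ i * U)| * |γ i|⁻¹ ≤ 1 * |γ i|⁻¹ :=
              mul_le_mul_of_nonneg_right (Real.abs_sin_le_one _) (by positivity)
          _ = _ := one_mul _
      simpa using h2.const_mul (2 * a i)
    · filter_upwards [eventually_gt_atTop 0] with U hU
      intro i
      rw [norm_mul, norm_mul, Real.norm_eq_abs, Real.norm_eq_abs, Real.norm_eq_abs, abs_of_pos (two_pos)]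
      have h4 : |Real.sin (γ i * U) / γ i / U| ≤ 1 := by
        rw [abs_div, abs_div, abs_of_pos hU, div_le_one hU, div_le_iff₀ (abs_pos.2 (hγ i))]
        calc |Real.sin (γ i * U)| ≤ |γ i * U| := Real.abs_sin_le_abs
          _ = U * |γ i| := by rw [abs_mul, abs_of_pos hU]; ring
      calc 2 * |a i| * |Real.sin (γ i * U) / γ i / U| ≤ 2 * |a i| * 1 :=
            mul_le_mul_of_nonneg_left h4 (by positivity)
        _ = 2 * |a i| := mul_one _
  rw [tsum_zero] at h0
  refine h0.congr' ?_
  filter_upwards [eventually_gt_atTop 0] with U hU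
  exact (key U hU).symm

/-- the mean value of `D` under the Riemann hypothesis -/
lemma mean_D (h : LD f L δ) (hR : RHf f) : Tendsto (mean (Dd L δ)) atTop (𝓝 (2 * (mu f 0 : ℝ))) := by
  have h1 := asym h fun w hw => nonpos_of_rh h hR hw
  have hwt : Summable fun g : Gs f => |wt f g| :=
    (wt_summ h).congr fun g => (abs_of_pos (wt_pos h g)).symm
  have hcount : Countable (Gs f) := by
    have h5 := (wt_summ h).countable_support
    have h6 : Function.support (wt f) = Set.univ := by
      ext g
      simp only [Function.mem_support, Set.mem_univ, iff_true]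
      exact (wt_pos h g).ne'
    rw [h6] at h5
    exact Set.countable_univ_iff.1 h5
  have h2 := mean_DD (a := wt f) (γ := fun g : Gs f => g.1) hwt fun g => g.2.1.ne'
  have hc : Continuous (DD (wt f) fun g : Gs f => g.1) := by
    unfold DD
    refine continuous_tsum (fun g => by fun_prop) (hwt.mul_left 2) fun g u => ?_
    rw [norm_mul, norm_mul, Real.norm_eq_abs, Real.norm_eq_abs, Real.norm_eq_abs, abs_of_pos (two_pos)]
    calc 2 * |wt f g| * |Real.cos (g.1 * u)| ≤ 2 * |wt f g| * 1 :=
          mul_le_mul_of_nonneg_left (Real.abs_cos_le_one _) (by positivity)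
      _ = 2 * |wt f g| := mul_one _
  refine ces (Dd_cont h) (h := fun u => 2 * (mu f 0 : ℝ) + DD (wt f) (fun g : Gs f => g.1) u) (by fun_prop) h1 ?_
  have h3 : Tendsto (fun U => 2 * (mu f 0 : ℝ) + mean (DD (wt f) fun g : Gs f => g.1) U) atTop
      (𝓝 (2 * (mu f 0 : ℝ) + 0)) := h2.const_add _
  rw [add_zero] at h3
  refine h3.congr' ?_
  filter_upwards [eventually_gt_atTop 0] with U hU
  unfold mean
  rw [intervalIntegral.integral_add (by simp) (hc.intervalIntegrable _ _), intervalIntegral.integral_const, smul_eq_mul]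
  field_simp
  ring

/-- change of variable -/
lemma logMean_D (h : LD f L δ) {D : ℝ → ℝ} (hD : ∀ x, 0 < x → D x = Dd L δ (Real.log x)) {X : ℝ} (hX : 1 < X) :
    logMean D X = mean (Dd L δ) (Real.log X) := by
  unfold logMean mean
  congr 1
  have hc : Continuous (Dd L δ) := Dd_cont h
  have h1 := intervalIntegral.integral_comp_mul_deriv (a := 1) (b := X) (f := Real.log) (f' := fun x => x⁻¹)
    (g := Dd L δ) (fun x hx => by
      rw [Set.uIcc_of_le hX.le] at hx
      exact Real.hasDerivAt_log (by linarith [hx.1])) (by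
      refine ContinuousOn.inv₀ continuousOn_id fun x hx => ?_
      rw [Set.uIcc_of_le hX.le] at hx
      have := hx.1
      exact (by linarith : (0:ℝ) < x).ne') hc
  rw [Real.log_one] at h1
  rw [← h1]
  refine intervalIntegral.integral_congr fun x hx => ?_
  rw [Set.uIcc_of_le hX.le] at hx
  simp only [Function.comp_apply]
  rw [hD x (by linarith [hx.1]), div_eq_mul_inv]

/-- **The first moment.** -/
theorem first_thm (h : LD f L δ) {Z : ℂ → ℂ} (hZ : ∀ z : ℂ, z ≠ 1 / 2 → f z = (z - 1 / 2) * Z (1 / 2 + z))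
    {D : ℝ → ℝ} (hD : ∀ x, 0 < x → D x = Dd L δ (Real.log x)) :
    (RHs Z → Tendsto (logMean D) atTop (𝓝 (2 * analyticOrderNatAt Z (1 / 2)))) ∧
    ∀ v : ℝ, (∀ ε : ℝ, 0 < ε → ∀ᶠ X in atTop, logMean D X ≤ v + ε) ↔
      RHs Z ∧ 2 * (analyticOrderNatAt Z (1 / 2) : ℝ) ≤ v := by
  have hfz : ∀ z : ℂ, z ≠ 1 / 2 → (f z = 0 ↔ Z (1 / 2 + z) = 0) := by
    intro z hz
    rw [hZ z hz, mul_eq_zero]
    constructor
    · rintro (h1 | h1)
      · exact absurd (by linear_combination h1) hz
      · exact h1
    · exact fun h1 => Or.inr h1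
  have hRH : RHs Z ↔ RHf f := by
    constructor
    · intro h1 w hw hw2
      rw [abs_lt] at hw2
      have hwh : w ≠ 1 / 2 := by
        rintro rfl
        norm_num at hw2
      have := h1 (1 / 2 + w) (by simp; linarith) (by simp; linarith) ((hfz w hwh).1 hw)
      simp at this
      linarith
    · intro h1 ρ h2 h3 h4
      have hwh : ρ - 1 / 2 ≠ 1 / 2 := by
        intro h5
        have : ρ = 1 := by linear_combination h5
        rw [this] at h3
        simp at h3
      have := h1 (ρ - 1 / 2) ((hfz _ hwh).2 (by rw [add_sub_cancel]; exact h4)) (by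
        rw [abs_lt]
        simp
        constructor <;> linarith)
      simp at this
      linarith
  have hord : mu f 0 = analyticOrderNatAt Z (1 / 2) := by
    rw [ord_eq h hZ (by norm_num), add_zero]
  have hlog : ∀ {c : ℝ}, Tendsto (mean (Dd L δ)) atTop (𝓝 c) → Tendsto (logMean D) atTop (𝓝 c) := by
    intro c hc
    refine (hc.comp Real.tendsto_log_atTop).congr' ?_
    filter_upwards [eventually_gt_atTop 1] with X hX
    rw [Function.comp_apply, logMean_D h hD hX]
  have ht : RHs Z → Tendsto (logMean D) atTop (𝓝 (2 * analyticOrderNatAt Z (1 / 2))) := by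
    intro hR
    have := hlog (mean_D h (hRH.1 hR))
    rwa [hord] at this
  refine ⟨ht, fun v => ⟨fun hv => ?_, ?_⟩⟩
  · have hR : RHs Z := by
      rw [hRH]
      refine rh_of_mean h (C := v + 1) ?_
      have h1 := Real.tendsto_exp_atTop.eventually (hv 1 one_pos)
      filter_upwards [h1, eventually_gt_atTop 0] with U hU hU0
      rw [logMean_D h hD (Real.one_lt_exp_iff.2 hU0), Real.log_exp] at hU
      unfold mean at hU
      rw [div_le_iff₀ hU0] at hU
      exact hU
    refine ⟨hR, le_of_forall_pos_le_add fun ε hε => ?_⟩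
    exact le_of_tendsto (ht hR) (hv ε hε)
  · rintro ⟨hR, hle⟩ ε hε
    filter_upwards [(ht hR).eventually_lt_const (show 2 * (analyticOrderNatAt Z (1 / 2) : ℝ) < v + ε by linarith)] with X hX
    exact hX.le

end Pool.Agent.U252.HR
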