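import Pool.Agent.U252.HR.FM2
import Pool.Agent.U252.HR.Fam

/-!
# The logarithmic mean and the central zeros for a family of L-functions
-/

set_option autoImplicit false

namespace Pool.Agent.U252.HR

open Finset Filter Topology Complex MeasureTheory
open Pool.Agent.U544.LI

variable {f : ℂ → ℂ} {L : ℕ → ℝ} {δ : ℝ}
variable {X : Type} {S : Finset X} {P : X → Prop} {Z : X → ℂ → ℂ} {d : X → ℕ}

/-- **The first moment for a family of L-functions.** -/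
theorem fam_first (h : LD f L δ) (hP : ∀ χ, P χ ↔ χ ∈ S) (hd : ∀ χ ∈ S, 0 < d χ)
    (hZ : ∀ χ ∈ S, ∀ s : ℂ, s ≠ 1 → AnalyticAt ℂ (Z χ) s) (h2 : ∀ χ ∈ S, Z χ 2 ≠ 0)
    (hf : ∀ z : ℂ, z ≠ 1 / 2 → f z = (z - 1 / 2) * ∏ χ ∈ S, Z χ (1 / 2 + z) ^ d χ)
    {D : ℝ → ℝ} (hD : ∀ x, 0 < x → D x = Dd L δ (Real.log x)) {c : ℝ}
    (hc : c = (∑ χ ∈ S, d χ * analyticOrderNatAt (Z χ) (1 / 2) : ℕ)) :
    ((∀ χ, P χ → RHs (Z χ)) → Tendsto (logMean D) atTop (𝓝 (2 * c))) ∧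
    ∀ v : ℝ, (∀ ε : ℝ, 0 < ε → ∀ᶠ X in atTop, logMean D X ≤ v + ε) ↔
      (∀ χ, P χ → RHs (Z χ)) ∧ 2 * c ≤ v := by
  classical
  set Zp : ℂ → ℂ := fun s => ∏ χ ∈ S, Z χ s ^ d χ with hZp
  have hZf : ∀ z : ℂ, z ≠ 1 / 2 → f z = (z - 1 / 2) * Zp (1 / 2 + z) := hf
  have hzero : ∀ s : ℂ, Zp s = 0 ↔ ∃ χ ∈ S, Z χ s = 0 := by
    intro s
    simp only [hZp]
    rw [Finset.prod_eq_zero_iff]
    constructor
    · rintro ⟨χ, hχ, h1⟩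
      exact ⟨χ, hχ, (pow_eq_zero_iff (hd χ hχ).ne').1 h1⟩
    · rintro ⟨χ, hχ, h1⟩
      exact ⟨χ, hχ, by rw [h1, zero_pow (hd χ hχ).ne']⟩
  have hRH : (∀ χ, P χ → RHs (Z χ)) ↔ RHs Zp := by
    constructor
    · intro h1 ρ h3 h4 h5
      obtain ⟨χ, hχ, h6⟩ := (hzero ρ).1 h5
      exact h1 χ ((hP χ).2 hχ) ρ h3 h4 h6
    · intro h1 χ hχ ρ h3 h4 h5
      exact h1 ρ h3 h4 ((hzero ρ).2 ⟨χ, (hP χ).1 hχ, h5⟩)
  have hord : (analyticOrderNatAt Zp (1 / 2) : ℝ) = c := by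
    have e1 : mu f 0 = analyticOrderNatAt Zp (1 / 2) := by
      rw [ord_eq h hZf (by norm_num), add_zero]
    have e2 : mu f 0 = ∑ χ ∈ S, d χ * analyticOrderNatAt (Z χ) (1 / 2 + 0) := by
      refine mu_fam hZ h2 (by norm_num) ?_
      have : ∀ᶠ z in 𝓝 (0:ℂ), z ≠ 1 / 2 := (continuous_id.tendsto 0).eventually_ne (by norm_num)
      filter_upwards [this] with z hz
      exact hf z hz
    rw [add_zero] at e2
    rw [← e1, e2, hc]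
  rw [hRH, ← hord]
  exact first_thm h hZf hD

end Pool.Agent.U252.HR
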