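import Pool.Agent.U349.EV.Kron

/-!
# Kronecker's theorem in the presence of relations
-/

set_option autoImplicit false

namespace Pool.Agent.U252.HR

open Finset Filter Topology Complex
open Pool.Agent.U349.EV

variable {ι : Type*}

/-- the phases `θ` satisfy all the integral relations between the `g` -/
def Comp (g θ : ι → ℝ) : Prop :=
  ∀ n : ι →₀ ℤ, (n.sum fun i k => (k : ℝ) * g i) = 0 → ∃ m : ℤ, (n.sum fun i k => (k : ℝ) * θ i) = m * (2 * Real.pi)

lemma comp_self (g : ι → ℝ) (t : ℝ) : Comp g (fun i => g i * t) := by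
  intro n hn
  refine ⟨0, ?_⟩
  have : (n.sum fun i k => (k : ℝ) * (g i * t)) = (n.sum fun i k => (k : ℝ) * g i) * t := by
    unfold Finsupp.sum
    rw [sum_mul]
    exact sum_congr rfl fun i _ => by ring
  rw [this, hn]
  simp

lemma sum_lin (n : ι →₀ ℤ) (g : ι → ℝ) : (n.sum fun i k => (k : ℝ) * g i) = Finsupp.linearCombination ℤ g n := by
  rw [Finsupp.linearCombination_apply]
  unfold Finsupp.sum
  exact sum_congr rfl fun i _ => (zsmul_eq_mul _ _).symm

/-- **Kronecker's theorem with relations** -/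
theorem kron_rel (S : Finset ι) {g θ : ι → ℝ} (h : Comp g θ) (T : ℝ) {η : ℝ} (hη : 0 < η) :
    ∃ t : ℝ, T ≤ t ∧ ∀ i ∈ S, ‖cexp (g i * t * I) - cexp (θ i * I)‖ < η := by
  classical
  set G : Submodule ℤ ℝ := Submodule.span ℤ (g '' (S : Set ι)) with hG
  have : Module.Finite ℤ G := Module.Finite.span_of_finite ℤ (S.finite_toSet.image g)
  have : Module.Free ℤ G := inferInstance
  let b := Module.finBasis ℤ G
  set r := Module.finrank ℤ G
  -- the lifts of the basis
  have hlift : ∀ j : Fin r, ∃ n : ι →₀ ℤ, Finsupp.linearCombination ℤ g n = ((b j : G) : ℝ) := by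
    intro j
    obtain ⟨l, -, hl⟩ := (Finsupp.mem_span_image_iff_linearCombination ℤ).1 (b j).2
    exact ⟨l, hl⟩
  choose nn hnn using hlift
  set γ : Fin r → ℝ := fun j => Finsupp.linearCombination ℤ θ (nn j) with hγ
  have hfree : ∀ l : Fin r → ℤ, l ≠ 0 → ∑ j, (l j : ℝ) * ((b j : G) : ℝ) ≠ 0 := by
    intro l hl h0
    apply hl
    have h1 : ∑ j, l j • b j = 0 := by
      apply Subtype.ext
      rw [Submodule.coe_sum]
      simpa [zsmul_eq_mul] using h0
    have h2 := Fintype.linearIndependent_iff.1 b.linearIndependent l h1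
    funext j
    exact h2 j
  choose t ht hc using fun k : ℕ => kron (fun j => ((b j : G) : ℝ)) hfree (fun j => -γ j)
    (show (0:ℝ) < 1 / ((k:ℝ) + 1) by positivity) T
  set z : ℕ → Fin r → ℂ := fun k j => cexp (((((b j : G) : ℝ) * t k + -γ j : ℝ) : ℂ) * I) with hz
  have hz1 : ∀ j, Tendsto (fun k => z k j) atTop (𝓝 1) := by
    intro j
    have e4 : ∀ k, ‖z k j - 1‖ ^ 2 ≤ 2 * (1 / ((k:ℝ) + 1)) := by
      intro k
      have h5 : ‖z k j‖ = 1 := Complex.norm_exp_ofReal_mul_I _
      have h6 : (z k j).re ^ 2 + (z k j).im ^ 2 = 1 := by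
        have := Complex.sq_norm (z k j)
        rw [h5, Complex.normSq_apply] at this
        nlinarith
      have h7 : (z k j).re = Real.cos (((b j : G) : ℝ) * t k + -γ j) := Complex.exp_ofReal_mul_I_re _
      have h8 := hc k j
      rw [Complex.sq_norm, Complex.normSq_apply]
      simp only [Complex.sub_re, Complex.sub_im, Complex.one_re, Complex.one_im, sub_zero]
      rw [← h7] at h8
      nlinarith
    have e6 : Tendsto (fun k : ℕ => 2 * (1 / ((k:ℝ) + 1))) atTop (𝓝 0) := by
      have := (tendsto_one_div_add_atTop_nhds_zero_nat (𝕜 := ℝ)).const_mul 2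
      simpa using this
    have e7 : Tendsto (fun k => ‖z k j - 1‖ ^ 2) atTop (𝓝 0) := squeeze_zero (fun k => by positivity) e4 e6
    have e8 : Tendsto (fun k => ‖z k j - 1‖) atTop (𝓝 0) := by
      have := e7.sqrt
      simp only [Real.sqrt_zero] at this
      refine this.congr fun k => ?_
      rw [Real.sqrt_sq (norm_nonneg _)]
    have e9 := tendsto_zero_iff_norm_tendsto_zero.2 e8
    have := e9.add_const 1
    simpa using this
  have hlim : ∀ i ∈ S, Tendsto (fun k => cexp (g i * t k * I)) atTop (𝓝 (cexp (θ i * I))) := by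
    intro i hi
    have hmem : g i ∈ G := Submodule.subset_span ⟨i, hi, rfl⟩
    set M : Fin r → ℤ := fun j => b.repr ⟨g i, hmem⟩ j with hM
    have h1 : ∑ j, (M j : ℝ) * ((b j : G) : ℝ) = g i := by
      have h2 := b.sum_repr ⟨g i, hmem⟩
      have h3 := congrArg (fun x : G => (x : ℝ)) h2
      simp only [Submodule.coe_sum, Submodule.coe_smul, zsmul_eq_mul] at h3
      exact h3
    -- the relation
    obtain ⟨m, hm⟩ := h (Finsupp.single i 1 - ∑ j, M j • nn j) (by
      rw [sum_lin, map_sub, map_sum, Finsupp.linearCombination_single, one_smul]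
      simp only [map_smul, hnn, zsmul_eq_mul]
      rw [h1, sub_self])
    rw [sum_lin, map_sub, map_sum, Finsupp.linearCombination_single, one_smul] at hm
    simp only [map_smul, zsmul_eq_mul] at hm
    have h4 : θ i = ∑ j, (M j : ℝ) * γ j + m * (2 * Real.pi) := by
      simp only [hγ]
      linarith
    have h5 : cexp (θ i * I) = cexp ((∑ j, (M j : ℂ) * γ j) * I) := by
      rw [h4]
      push_cast
      rw [add_mul, Complex.exp_add, show ((m : ℂ) * (2 * Real.pi) * I) = m * (2 * Real.pi * I) by ring,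
        Complex.exp_int_mul_two_pi_mul_I, mul_one]
    have h6 : ∀ k, cexp (g i * t k * I) = cexp (θ i * I) * ∏ j, z k j ^ M j := by
      intro k
      rw [h5]
      simp only [hz]
      have h7 : ∀ j, cexp (((((b j : G) : ℝ) * t k + -γ j : ℝ) : ℂ) * I) ^ M j =
          cexp ((M j : ℂ) * (((((b j : G) : ℝ) * t k + -γ j : ℝ) : ℂ) * I)) := fun j => (Complex.exp_int_mul _ _).symm
      rw [prod_congr rfl fun j _ => h7 j, ← Complex.exp_sum, ← Complex.exp_add, ← h1]
      congr 1
      push_cast
      rw [sum_mul, sum_mul, sum_mul, ← sum_add_distrib]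
      exact sum_congr rfl fun j _ => by ring
    simp only [h6]
    have h8 : Tendsto (fun k => ∏ j, z k j ^ M j) atTop (𝓝 (∏ j : Fin r, (1:ℂ) ^ M j)) :=
      tendsto_finsetProd _ fun j _ => (hz1 j).zpow₀ (M j) (Or.inl one_ne_zero)
    have h9 := h8.const_mul (cexp (θ i * I))
    simpa using h9
  have hev : ∀ i ∈ S, ∀ᶠ k in atTop, ‖cexp (g i * t k * I) - cexp (θ i * I)‖ < η := by
    intro i hi
    have := (Metric.tendsto_nhds.1 (hlim i hi)) η hη
    simpa only [dist_eq_norm] using this
  obtain ⟨k, hk⟩ := ((eventually_all_finset S).2 hev).exists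
  exact ⟨t k, ht k, hk⟩

end Pool.Agent.U252.HR
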