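import Pool.Agent.U252.HR.Core
import Pool.Agent.U349.EV.SetC

/-!
# The extreme values of the error term and the relations between the ordinates
-/

set_option autoImplicit false

namespace Pool.Agent.U252.HR

open Finset Filter Topology Complex MeasureTheory
open Pool.Agent.U544.LI Pool.Agent.U349.EV

variable {f : ℂ → ℂ} {L : ℕ → ℝ} {δ : ℝ}

/-- **the exact extreme values** -/
theorem formula (h : LD f L δ) (hR : RHf f) {m : ℕ} (w hs : Fin m → ℝ) :
    LimsupIs (fun u => ∑ j, w j * Dd L δ (u + hs j))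
      (2 * (mu f 0 : ℝ) * (∑ j, w j) + EX (Am f w hs) (fun g : Gs f => g.1)) := by
  refine ⟨fun ε hε => ?_, fun ε hε => ?_⟩
  · filter_upwards [(asymW h hR w hs).eventually_lt_const hε] with u hu
    have := F_le_EX (Am_summ h w hs) (fun g : Gs f => g.1) u
    linarith
  · rw [Filter.frequently_atTop]
    intro U
    have h1 := (asymW h hR w hs).eventually_const_lt (show -(ε / 2) < 0 by linarith)
    obtain ⟨U1, hU1⟩ := eventually_atTop.1 h1
    obtain ⟨t, ht, h2⟩ := EX_approx (Am_summ h w hs) (fun g : Gs f => g.1) (half_pos hε) (max U U1)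
    refine ⟨t, (le_max_left _ _).trans ht, ?_⟩
    have h3 := hU1 t ((le_max_right _ _).trans ht)
    linarith

/-- limes superior is unique -/
lemma limsup_unique {W : ℝ → ℝ} {a b : ℝ} (ha : LimsupIs W a) (hb : LimsupIs W b) : a = b := by
  have key : ∀ {a b : ℝ}, LimsupIs W a → LimsupIs W b → a ≤ b := by
    intro a b ha hb
    by_contra hlt
    push Not at hlt
    obtain ⟨x, h1, h2⟩ := ((ha.2 ((a - b) / 2) (by linarith)).and_eventually (hb.1 ((a - b) / 2) (by linarith))).exists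
    linarith
  exact le_antisymm (key ha hb) (key hb ha)

lemma two_wt_pos (h : LD f L δ) (g : Gs f) : 0 < 2 * wt f g := by have := wt_pos h g; positivity

/-- the limes inferior -/
theorem formula_neg (h : LD f L δ) (hR : RHf f) :
    LimsupIs (fun u => -Dd L δ u) (-(2 * (mu f 0 : ℝ)) + EX (fun g : Gs f => ((-(2 * wt f g) : ℝ) : ℂ)) (fun g => g.1)) := by
  have h1 := formula h hR (fun _ : Fin 1 => (-1:ℝ)) (fun _ => 0)
  have h2 : Am f (fun _ : Fin 1 => (-1:ℝ)) (fun _ => 0) = fun g : Gs f => ((-(2 * wt f g) : ℝ) : ℂ) := by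
    funext g
    unfold Am
    simp
  rw [h2] at h1
  simpa using h1

/-- **sign symmetry of the extreme values** -/
theorem symmetric_iff (h : LD f L δ) :
    (RHf f ∧ mu f 0 = 0 ∧ ∀ n : Gs f →₀ ℤ, (n.sum fun g k => (k : ℝ) * g.1) = 0 → Even (n.sum fun _ k => k)) ↔
      ∃ v, LimsupIs (Dd L δ) v ∧ LimsupIs (fun u => -Dd L δ u) v := by
  have hs : Summable fun g : Gs f => 2 * wt f g := (wt_summ h).mul_left 2
  have hn : ∀ g : Gs f, ‖((-(2 * wt f g) : ℝ) : ℂ)‖ = 2 * wt f g := fun g => by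
    rw [Complex.norm_real, norm_neg, Real.norm_of_nonneg (two_wt_pos h g).le]
  have hA : Summable fun g : Gs f => ‖((-(2 * wt f g) : ℝ) : ℂ)‖ := by simpa only [hn] using hs
  constructor
  · rintro ⟨hR, h0, hev⟩
    refine ⟨∑' g, 2 * wt f g, ?_, ?_⟩
    · have h1 : LimsupIs (Dd L δ) (2 * (mu f 0 : ℝ) + ∑' g, 2 * wt f g) :=
        ⟨fun ε hε => upper_D h hR hε, fun ε hε => lower_D h hR hε⟩
      rw [h0] at h1
      simpa using h1
    · have h1 := formula_neg h hR
      rw [(even_iff (two_wt_pos h) hs (fun g : Gs f => g.1)).2 hev, h0] at h1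
      simpa using h1
  · rintro ⟨v, hv1, hv2⟩
    have hR : RHf f := rh_of_le h ((hv1.1 1 one_pos).mono fun u hu => hu.le)
    have h1 : LimsupIs (Dd L δ) (2 * (mu f 0 : ℝ) + ∑' g, 2 * wt f g) :=
      ⟨fun ε hε => upper_D h hR hε, fun ε hε => lower_D h hR hε⟩
    have h2 := formula_neg h hR
    have h3 := limsup_unique hv1 h1
    have h4 := limsup_unique hv2 h2
    have h5 : EX (fun g : Gs f => ((-(2 * wt f g) : ℝ) : ℂ)) (fun g => g.1) ≤ ∑' g, 2 * wt f g := by
      have := EX_le hA (fun g : Gs f => g.1)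
      simpa only [hn] using this
    have h6 : (0:ℝ) ≤ mu f 0 := Nat.cast_nonneg _
    have h7 : (mu f 0 : ℝ) = 0 := by linarith
    have h8 : mu f 0 = 0 := by exact_mod_cast h7
    refine ⟨hR, h8, ?_⟩
    rw [← even_iff (two_wt_pos h) hs (fun g : Gs f => g.1)]
    rw [h7] at h3 h4
    linarith

/-- the extreme value of `∑ w_j D(c_j x)` in terms of the ordinates: supremum over the phases which satisfy all
the relations between the ordinates -/
noncomputable def Ez (Z : ℂ → ℂ) {m : ℕ} (w c : Fin m → ℝ) : ℝ :=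
  sSup {v : ℝ | ∃ θ : Ord Z → ℝ, Comp (fun g : Ord Z => g.1) θ ∧
    v = ∑' g : Ord Z, aa Z g * ((∑ j, (w j : ℂ) * (c j : ℂ) ^ (g.1 * I)) * cexp (θ g * I)).re}

/-- **The theorem for the set of ordinates.** -/
theorem set_thm (h : LD f L δ) {Z : ℂ → ℂ} (hZ : ∀ z : ℂ, z ≠ 1 / 2 → f z = (z - 1 / 2) * Z (1 / 2 + z))
    {D : ℝ → ℝ} (hD : ∀ x, 0 < x → D x = Dd L δ (Real.log x)) :
    Summable (aa Z) ∧
    (RHs Z ↔ ∃ C, ∀ᶠ x in atTop, D x ≤ C) ∧
    (RHs Z → ∀ (m : ℕ) (w c : Fin m → ℝ), (∀ j, 0 < c j) →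
      LimsupIs (fun x => ∑ j, w j * D (c j * x)) (2 * analyticOrderNatAt Z (1 / 2) * (∑ j, w j) + Ez Z w c)) ∧
    (RHs Z → LimsupIs D (2 * analyticOrderNatAt Z (1 / 2) + ∑' g, aa Z g)) ∧
    (RHs Z → (LimsupIs (fun x => -D x) (-(2 * analyticOrderNatAt Z (1 / 2)) + ∑' g, aa Z g) ↔
      ∀ n : Ord Z →₀ ℤ, (n.sum fun g k => (k : ℝ) * g.1) = 0 → Even (n.sum fun _ k => k))) ∧
    ((RHs Z ∧ analyticOrderNatAt Z (1 / 2) = 0 ∧
        ∀ n : Ord Z →₀ ℤ, (n.sum fun g k => (k : ℝ) * g.1) = 0 → Even (n.sum fun _ k => k)) ↔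
      ∃ v, LimsupIs D v ∧ LimsupIs (fun x => -D x) v) := by
  classical
  have hfz : ∀ z : ℂ, z ≠ 1 / 2 → (f z = 0 ↔ Z (1 / 2 + z) = 0) := by
    intro z hz
    rw [hZ z hz, mul_eq_zero]
    constructor
    · rintro (h1 | h1)
      · exact absurd (sub_eq_zero.1 h1) hz
      · exact h1
    · intro h1
      exact Or.inr h1
  have hRH : RHs Z ↔ RHf f := by
    constructor
    · intro h1 w hw hw2
      rw [abs_lt] at hw2
      have hwh : w ≠ 1 / 2 := by
        rintro rfl
        norm_num at hw2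
      have := h1 (1 / 2 + w) (by simp; linarith) (by simp; linarith) ((hfz w hwh).1 hw)
      simp at this
      linarith
    · intro h1 ρ h2 h3 h4
      have hwh : ρ - 1 / 2 ≠ 1 / 2 := by
        intro h5
        have : ρ = 1 := by linear_combination h5
        rw [this] at h3
        simp at h3
      have := h1 (ρ - 1 / 2) ((hfz _ hwh).2 (by rw [add_sub_cancel]; exact h4)) (by
        rw [abs_lt]
        constructor <;> simp <;> linarith)
      simp at this
      linarith
  have hmu0 : mu f 0 = analyticOrderNatAt Z (1 / 2) := by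
    rw [ord_eq h hZ (by norm_num), add_zero]
  let π : Ord Z ≃ Gs f :=
    { toFun := fun g => ⟨g.1, g.2.1, (hfz _ (ne_half _)).2 g.2.2⟩
      invFun := fun g => ⟨g.1, g.2.1, (hfz _ (ne_half _)).1 g.2.2⟩
      left_inv := fun g => rfl
      right_inv := fun g => rfl }
  have hπ : ∀ g, (π g).1 = g.1 := fun g => rfl
  have haa : ∀ g, 2 * wt f (π g) = aa Z g := by
    intro g
    have e : wt f (π g) = (mu f ((g.1:ℂ) * I) : ℝ) * (2 / (1 + g.1 ^ 2)) := rfl
    rw [e, ord_eq h hZ (ne_half _)]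
    unfold aa
    ring
  have hsum : Summable (aa Z) := by
    have := ((wt_summ h).mul_left 2).comp_injective π.injective
    refine this.congr fun g => ?_
    exact haa g
  have hts : ∑' g, aa Z g = ∑' g, 2 * wt f g := by
    rw [← π.tsum_eq (fun g => 2 * wt f g)]
    exact tsum_congr fun g => (haa g).symm
  have hpos : ∀ g, 0 < aa Z g := fun g => by rw [← haa]; exact two_wt_pos h _
  have hDl : ∀ᶠ x in atTop, D x = Dd L δ (Real.log x) := by
    filter_upwards [eventually_gt_atTop 0] with x hx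
    exact hD x hx
  have hDl' : ∀ᶠ x in atTop, -D x = (fun u => -Dd L δ u) (Real.log x) := by
    filter_upwards [eventually_gt_atTop 0] with x hx
    rw [hD x hx]
  have hWl : ∀ (m : ℕ) (w c : Fin m → ℝ), (∀ j, 0 < c j) → ∀ᶠ x in atTop,
      ∑ j, w j * D (c j * x) = (fun u => ∑ j, w j * Dd L δ (u + Real.log (c j))) (Real.log x) := by
    intro m w c hc
    filter_upwards [eventually_gt_atTop 0] with x hx
    refine sum_congr rfl fun j _ => ?_
    rw [hD _ (mul_pos (hc j) hx), Real.log_mul (hc j).ne' hx.ne', add_comm]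
  have hb : (∃ C, ∀ᶠ x in atTop, D x ≤ C) → RHf f := by
    rintro ⟨C, hC⟩
    refine rh_of_le h (C := C) (ev_log.1 ?_)
    filter_upwards [hC, hDl] with x hx hx'
    rwa [← hx']
  have hlimD : RHf f → LimsupIs D (2 * analyticOrderNatAt Z (1 / 2) + ∑' g, aa Z g) := by
    intro hR
    rw [limsup_log hDl, ← hmu0, hts]
    exact ⟨fun ε hε => upper_D h hR hε, fun ε hε => lower_D h hR hε⟩
  have hEz : ∀ (m : ℕ) (w c : Fin m → ℝ), (∀ j, 0 < c j) →
      Ez Z w c = EX (Am f w (fun j => Real.log (c j))) (fun g : Gs f => g.1) := by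
    intro m w c hc
    rw [← EX_equiv π]
    unfold Ez EX
    have e1 : ∀ θ : Ord Z → ℝ, ∑' g : Ord Z, aa Z g * ((∑ j, (w j : ℂ) * (c j : ℂ) ^ (g.1 * I)) * cexp (θ g * I)).re =
        FH (fun i => Am f w (fun j => Real.log (c j)) (π i)) θ := by
      intro θ
      unfold FH
      refine tsum_congr fun g => ?_
      have e2 : Am f w (fun j => Real.log (c j)) (π g) =
          ((aa Z g : ℝ) : ℂ) * ∑ j, (w j : ℂ) * (c j : ℂ) ^ (g.1 * I) := by
        unfold Am
        rw [haa]
        congr 1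
        exact sum_congr rfl fun j _ => by rw [cpow_eq (hc j), hπ]
      show _ = (Am f w (fun j => Real.log (c j)) (π g) * cexp (θ g * I)).re
      rw [e2, mul_assoc, Complex.re_ofReal_mul]
    simp only [e1]
    rfl
  have hev : (∀ n : Ord Z →₀ ℤ, (n.sum fun g k => (k : ℝ) * g.1) = 0 → Even (n.sum fun _ k => k)) ↔
      EX (fun g : Gs f => ((-(2 * wt f g) : ℝ) : ℂ)) (fun g => g.1) = ∑' g, aa Z g := by
    rw [← EX_equiv π, ← even_iff hpos hsum (fun g : Ord Z => g.1)]
    simp only [haa]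
    rfl
  have hneg : RHf f → LimsupIs (fun x => -D x)
      (-(2 * analyticOrderNatAt Z (1 / 2)) + EX (fun g : Gs f => ((-(2 * wt f g) : ℝ) : ℂ)) (fun g => g.1)) := by
    intro hR
    rw [limsup_log (V' := fun u => -Dd L δ u) hDl', ← hmu0]
    exact formula_neg h hR
  refine ⟨hsum, ?_, ?_, ?_, ?_, ?_⟩
  · rw [hRH]
    refine ⟨fun hR => ?_, hb⟩
    exact ⟨_, ((hlimD hR).1 1 one_pos).mono fun x hx => hx.le⟩
  · rw [hRH]
    intro hR m w c hc
    rw [limsup_log (V' := fun u => ∑ j, w j * Dd L δ (u + Real.log (c j))) (hWl m w c hc), hEz m w c hc, ← hmu0]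
    exact formula h hR w fun j => Real.log (c j)
  · rw [hRH]
    exact hlimD
  · rw [hRH]
    intro hR
    rw [hev]
    constructor
    · intro h1
      have := limsup_unique h1 (hneg hR)
      linarith
    · intro h1
      rw [← h1]
      exact hneg hR
  · constructor
    · rintro ⟨hR, h0, he⟩
      rw [hRH] at hR
      rw [hev] at he
      have h1 := hlimD hR
      have h2 := hneg hR
      rw [he] at h2
      rw [h0] at h1 h2
      exact ⟨∑' g, aa Z g, by simpa using h1, by simpa using h2⟩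
    · rintro ⟨v, hv1, hv2⟩
      have hR : RHf f := hb ⟨_, (hv1.1 1 one_pos).mono fun x hx => hx.le⟩
      have h3 := limsup_unique hv1 (hlimD hR)
      have h4 := limsup_unique hv2 (hneg hR)
      have h5 : EX (fun g : Gs f => ((-(2 * wt f g) : ℝ) : ℂ)) (fun g => g.1) ≤ ∑' g, aa Z g := by
        rw [hts]
        have hn : ∀ g : Gs f, ‖((-(2 * wt f g) : ℝ) : ℂ)‖ = 2 * wt f g := fun g => by
          rw [Complex.norm_real, norm_neg, Real.norm_of_nonneg (two_wt_pos h g).le]
        have hA : Summable fun g : Gs f => ‖((-(2 * wt f g) : ℝ) : ℂ)‖ := by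
          simpa only [hn] using (wt_summ h).mul_left 2
        have := EX_le hA (fun g : Gs f => g.1)
        simpa only [hn] using this
      have h6 : (0:ℝ) ≤ analyticOrderNatAt Z (1 / 2) := Nat.cast_nonneg _
      have h7 : (analyticOrderNatAt Z (1 / 2) : ℝ) = 0 := by linarith
      refine ⟨hRH.2 hR, by exact_mod_cast h7, ?_⟩
      rw [hev]
      rw [h7] at h3 h4
      linarith

end Pool.Agent.U252.HR
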